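import Pool.Agent.Work.MP_db9399_slp_helper59.Sel2
import Pool.Agent.Work.MP_db9399_x4.XF4

/-!
# MP_db9399, all scales, SELP4 part 1 (helper59): choice of the colours
-/

set_option autoImplicit false

namespace Pool.Agent.Work.MP_db9399_x4_helper59

open Finset Classical
open Pool.Agent.Work.MP_db9399_all (nb)
open Pool.Agent.Work.MP_db9399_lt (us)
open Pool.Agent.Work.MP_db9399_da hiding qV
open Pool.Agent.Work.MP_db9399_xf
open Pool.Agent.Work.MP_db9399_x4
open Pool.Agent.Work.MP_db9399_slp_helper59 (SelxP mem_nb mem_pV mem_sV qV_sub sV_sub Ft_sub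
  sum_piece pV_card side_large cvc_card sgp_zero)
open Pool.Agent.Work.MP_db9399_iv_helper38 (SelN selx ev_rpow)

universe u

/-- good colours of `A.Q j` for a piece of type B -/
theorem good4 {k0 : ℝ} (hk0 : 0 < k0) (K side d : ℕ) (hd : 0 < d) (Q O Cv L : Finset ℕ)
    (s : ℕ → ℤ) (nf : ℕ → ℕ) (hnf : ∀ b, -s b ≤ nf b)
    (hsK : (side : ℝ) ≤ 10 * d * K) (hK1 : 1 ≤ K)
    (hneg : ((∑ b ∈ Q, min (nf b) K : ℕ) : ℝ) ≤ (3 / 5 + 1 / 300 * side / d) * Q.card)
    (hQ : k0 * d ≤ (Q.card : ℝ)) (hO : ((Q ∩ O).card : ℝ) ≤ 1 / 10 * Q.card)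
    (hL : (L.card : ℝ) ≤ k0 / 50 * d) (hC : (Cv.card : ℝ) ≤ k0 / 100 * d) :
    k0 / 5 * d ≤ (((((Q \ O) \ Cv) \ L).filter
      fun b => -(side : ℝ) ≤ 10 * d * ((s b : ℤ) : ℝ)).card : ℝ) := by
  have hdp : (0 : ℝ) < d := by exact_mod_cast hd
  have hs0 : (0 : ℝ) ≤ side := Nat.cast_nonneg _
  set T := (side : ℝ) / (10 * d) with hT
  have hT0 : 0 ≤ T := by positivity
  set M := max 1 T with hM
  have hM1 : 1 ≤ M := le_max_left _ _
  have hMT : T ≤ M := le_max_right _ _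
  have hMK : M ≤ K := by
    refine max_le (by exact_mod_cast hK1) ?_
    rw [hT, div_le_iff₀ (by positivity)]
    linarith
  set bad := Q.filter fun b => ¬ -(side : ℝ) ≤ 10 * d * ((s b : ℤ) : ℝ) with hbad
  have h1 : (bad.card : ℝ) * M ≤ (3 / 5 + 1 / 300 * side / d) * Q.card := by
    refine le_trans ?_ hneg
    push_cast
    calc (bad.card : ℝ) * M = ∑ _b ∈ bad, M := by rw [sum_const, nsmul_eq_mul]
      _ ≤ ∑ b ∈ bad, min (nf b : ℝ) (K : ℝ) := by
        refine sum_le_sum fun b hb => ?_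
        have h2 := (mem_filter.1 hb).2
        push Not at h2
        have h3 : ((s b : ℤ) : ℝ) < 0 := by
          by_contra hcon
          push Not at hcon
          have : 0 ≤ 10 * d * ((s b : ℤ) : ℝ) := by positivity
          linarith
        have h4 : s b < 0 := by exact_mod_cast h3
        have h5 : s b ≤ -1 := by omega
        have h6 : ((s b : ℤ) : ℝ) ≤ -1 := by exact_mod_cast h5
        have h7 : -((s b : ℤ) : ℝ) ≤ (nf b : ℝ) := by exact_mod_cast hnf b
        refine le_min ?_ hMK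
        refine max_le (by linarith) ?_
        rw [hT, div_le_iff₀ (by positivity)]
        nlinarith
      _ ≤ _ := sum_le_sum_of_subset_of_nonneg (filter_subset _ _) fun _ _ _ =>
        le_min (Nat.cast_nonneg _) (Nat.cast_nonneg _)
  have h2 : 1 / 300 * (side : ℝ) / d ≤ M / 30 := by
    have h4 : 1 / 300 * (side : ℝ) / d = T / 30 := by
      rw [hT]
      field_simp
      ring
    rw [h4]
    linarith
  have h3 : (bad.card : ℝ) ≤ 19 / 30 * Q.card := by
    have hQ0 : (0 : ℝ) ≤ Q.card := Nat.cast_nonneg _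
    have h4 : (bad.card : ℝ) * M ≤ (19 / 30 * Q.card) * M := by
      refine h1.trans ?_
      have h5 : 3 / 5 + 1 / 300 * (side : ℝ) / d ≤ 19 / 30 * M := by linarith
      calc (3 / 5 + 1 / 300 * (side : ℝ) / d) * (Q.card : ℝ) ≤ (19 / 30 * M) * Q.card :=
            mul_le_mul_of_nonneg_right h5 hQ0
        _ = _ := by ring
    exact le_of_mul_le_mul_right h4 (by linarith)
  have h4 : (Q.card : ℝ) ≤ (((((((Q \ O) \ Cv) \ L).filter fun b => -(side : ℝ) ≤ 10 * d *
      ((s b : ℤ) : ℝ)).card : ℝ) + bad.card) + (Q ∩ O).card) + Cv.card + L.card := by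
    have h5 : Q ⊆ (((((((Q \ O) \ Cv) \ L).filter fun b => -(side : ℝ) ≤ 10 * d *
      ((s b : ℤ) : ℝ)) ∪ bad) ∪ (Q ∩ O)) ∪ Cv) ∪ L := by
      intro b hb
      simp only [mem_union, mem_filter, mem_sdiff, hbad, mem_inter]
      tauto
    have h6 := (card_le_card h5).trans ((card_union_le _ _).trans
      (Nat.add_le_add_right ((card_union_le _ _).trans
      (Nat.add_le_add_right ((card_union_le _ _).trans
      (Nat.add_le_add_right (card_union_le _ _) _)) _)) _))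
    exact_mod_cast h6
  nlinarith

/-- a natural number between `y` and `2 y` -/
theorem ceil_two {y : ℝ} (hy : 1 ≤ y) : y ≤ (⌈y⌉₊ : ℝ) ∧ (⌈y⌉₊ : ℝ) ≤ 2 * y := by
  refine ⟨Nat.le_ceil y, ?_⟩
  have h1 := Nat.ceil_lt_add_one (show 0 ≤ y by linarith)
  linarith

/-- choice of the palettes of a piece of type B -/
theorem sel_piece {k0 π κ : ℝ} (d : ℕ) (AQ G : Bool → Finset ℕ) (B1 E L : Finset ℕ)
    (hκ : κ ≤ k0 / 10) (hκ1 : κ ≤ 1 / 100) (hπ1 : π ≤ 1 / 100) (h1 : 1 ≤ κ * d) (h2 : 1 ≤ π * d)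
    (hG : ∀ j, G j ⊆ AQ j) (hGc : ∀ j, k0 / 5 * d ≤ ((G j).card : ℝ))
    (hAQ : Disjoint (AQ false) (AQ true)) (hB1 : B1 ⊆ range (d + 2)) (hB1E : Disjoint B1 E)
    (hB1L : Disjoint B1 L) (hB1c : (B1.card : ℝ) ≤ π * d) (hEc : (E.card : ℝ) ≤ d / 10)
    (hLc : (L.card : ℝ) ≤ d / 10) (hGB : ∀ j, Disjoint (G j) B1) :
    ∃ (Q : Bool → Finset ℕ) (P2 : Finset ℕ), (∀ j, Q j ⊆ G j) ∧ P2 ⊆ range (d + 2) ∧
      Disjoint (Q false) (Q true) ∧ (∀ j, Disjoint (Q j) P2) ∧
      (∀ j, κ * d ≤ ((Q j).card : ℝ) ∧ ((Q j).card : ℝ) ≤ 2 * κ * d) ∧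
      (π * d ≤ (P2.card : ℝ) ∧ (P2.card : ℝ) ≤ 2 * π * d) ∧ B1 ⊆ P2 ∧ Disjoint P2 E ∧
      Disjoint P2 L := by
  have hd0 : (0 : ℝ) ≤ d := Nat.cast_nonneg _
  have hκd := ceil_two h1
  have hπd := ceil_two h2
  have hQ : ∀ j, ∃ Q ⊆ G j, Q.card = ⌈κ * d⌉₊ := by
    intro j
    refine exists_subset_card_eq ?_
    have h3 := hGc j
    have h4 : (⌈κ * d⌉₊ : ℝ) ≤ ((G j).card : ℝ) := by nlinarith
    exact_mod_cast h4
  choose Q hQG hQc using hQ
  set Sx := range (d + 2) \ (((Q false ∪ Q true) ∪ E) ∪ L) with hSx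
  have hB1S : B1 ⊆ Sx := by
    intro b hb
    rw [hSx, mem_sdiff, mem_union, mem_union, mem_union]
    refine ⟨hB1 hb, ?_⟩
    rintro (((h | h) | h) | h)
    · exact Finset.disjoint_left.1 (hGB false) (hQG false h) hb
    · exact Finset.disjoint_left.1 (hGB true) (hQG true h) hb
    · exact Finset.disjoint_left.1 hB1E hb h
    · exact Finset.disjoint_left.1 hB1L hb h
  have hSc : ⌈π * d⌉₊ ≤ Sx.card := by
    have h3 : (range (d + 2)).card ≤ Sx.card + (((Q false ∪ Q true) ∪ E) ∪ L).card := by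
      have h4 := card_le_card (show range (d + 2) ⊆ Sx ∪ (((Q false ∪ Q true) ∪ E) ∪ L) by
        intro b hb
        rw [mem_union, hSx, mem_sdiff]
        tauto)
      exact h4.trans (card_union_le _ _)
    have h4 : (((Q false ∪ Q true) ∪ E) ∪ L).card ≤
        (((Q false).card + (Q true).card) + E.card) + L.card :=
      (card_union_le _ _).trans (Nat.add_le_add_right ((card_union_le _ _).trans
        (Nat.add_le_add_right (card_union_le _ _) _)) _)
    rw [card_range] at h3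
    have h5 : (d : ℝ) + 2 ≤ Sx.card + ((((Q false).card + (Q true).card) + E.card) + L.card) := by
      exact_mod_cast h3.trans (Nat.add_le_add_left h4 _)
    rw [hQc, hQc] at h5
    have h6 : (⌈π * d⌉₊ : ℝ) ≤ (Sx.card : ℝ) := by nlinarith
    exact_mod_cast h6
  have hB1c' : B1.card ≤ ⌈π * d⌉₊ := by
    have := hB1c.trans hπd.1
    exact_mod_cast this
  obtain ⟨P2, hP1, hP2, hPc⟩ := exists_subsuperset_card_eq hB1S hB1c' hSc
  have hnot : ∀ b ∈ P2, b ∈ range (d + 2) ∧ b ∉ Q false ∧ b ∉ Q true ∧ b ∉ E ∧ b ∉ L := by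
    intro b hb
    have h3 := hP2 hb
    rw [hSx, mem_sdiff, mem_union, mem_union, mem_union] at h3
    tauto
  refine ⟨Q, P2, hQG, fun b hb => (hnot b hb).1, ?_, ?_, ?_, ?_, hP1, ?_, ?_⟩
  · exact hAQ.mono ((hQG false).trans (hG false)) ((hQG true).trans (hG true))
  · intro j
    rw [Finset.disjoint_left]
    intro b hb hb'
    have h3 := hnot b hb'
    cases j
    · exact h3.2.1 hb
    · exact h3.2.2.1 hb
  · intro j
    rw [hQc]
    exact ⟨hκd.1, by linarith [hκd.2]⟩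
  · rw [hPc]
    exact ⟨hπd.1, by linarith [hπd.2]⟩
  · rw [Finset.disjoint_left]
    exact fun b hb => (hnot b hb).2.2.2.1
  · rw [Finset.disjoint_left]
    exact fun b hb => (hnot b hb).2.2.2.2

/-- `sg` and the needs -/
theorem sg_need {U : Type u} [Fintype U] (F : U → Finset ℕ) (sd : U → Bool) (b : ℕ) :
    |sg F sd b| = (need F sd false b : ℤ) + need F sd true b ∧
      -sg F sd b ≤ (need F sd false b : ℤ) := by
  unfold sg need
  simp only [Bool.not_false, Bool.not_true]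
  generalize (sid sd false ∩ us F b).card = x
  generalize (sid sd true ∩ us F b).card = y
  rcases le_total x y with h | h
  · rw [abs_of_nonpos (by omega)]
    omega
  · rw [abs_of_nonneg (by omega)]
    omega

end Pool.Agent.Work.MP_db9399_x4_helper59
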