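import Pool.Agent.Work.MP_db9399_x4_helper59.Sel4a

/-!
# MP_db9399, all scales, SELP4 (helper59)
-/

set_option autoImplicit false

namespace Pool.Agent.Work.MP_db9399_x4_helper59

open Finset Classical
open Pool.Agent.Work.MP_db9399_all (nb)
open Pool.Agent.Work.MP_db9399_lt (us)
open Pool.Agent.Work.MP_db9399_da hiding qV
open Pool.Agent.Work.MP_db9399_xf
open Pool.Agent.Work.MP_db9399_x4
open Pool.Agent.Work.MP_db9399_slp_helper59 (SelxP mem_nb mem_pV mem_sV qV_sub sV_sub Ft_sub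
  sum_piece pV_card side_large cvc_card sgp_zero)
open Pool.Agent.Work.MP_db9399_iv_helper38 (SelN selx ev_rpow)

universe u

/-- pieces of type N -/
theorem stageN {V : Type u} [Fintype V] {N J : ℕ} {πk C g z θk θ' η a l x : ℝ} {M : ℕ}
    {S : Fin J → Scl} {π κ κ0 ξ δ : ℝ} {G : SimpleGraph V} {d : ℕ}
    {X : XD V N J} {A : PalX} {t : V → V → ℕ} (hC : 1 ≤ C) (hκ0 : κ0 = (1 - 3 * πk) / 100)
    (hκ0p : 0 < κ0) (hδ : 0 < δ) (hsel : SelxP π κ κ0 ξ (12 + C) δ d) (hd : 1 ≤ d)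
    (hX : PcX C g z θk θ' η a M S G d X) (hA : PalXP πk A d)
    (hlt : ∀ v w, (xt G X).Adj v w → t v w < d + 2)
    (hinj : ∀ v, Set.InjOn (t v) (nb (xt G X) v : Set V))
    (hN : NuN l x S G d X A t) (hx1 : x ≤ 1) {n : Fin N} (hn : X.P.ty n = Ty.N)
    (hε : (S (X.sc n)).ε ≤ ξ / 4) :
    ∃ (Q : Bool → Finset ℕ) (P2 : Finset ℕ), SelN π κ ξ (12 + C) d A.Q ∅ ∅
      (sgp (Fp (xt G X) X t n) (sdn X.P n) (ptn X.P n)) Q P2 := by
  have hd1 : (1 : ℝ) ≤ d := by exact_mod_cast hd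
  have hdp : (0 : ℝ) < d := by linarith
  have hδd : 0 ≤ δ * d := by positivity
  have hQc : ∀ j, κ0 * d ≤ ((A.Q j).card : ℝ) := by
    intro j
    rw [hκ0]
    exact (hA.Qc j).1
  have hpc := pV_card hX.toPcD (by linarith : 0 ≤ C) n
  have hsel' := hsel (Fin 0) A.Q ∅ ∅
    (sgp (Fp (xt G X) X t n) (sdn X.P n) (ptn X.P n)) (fun q => q.elim0) 0 hA.Qlt hA.QQ
    (fun i => Finset.disjoint_empty_right _) (fun i => by have := hQc i; nlinarith)
    (empty_subset _) (Finset.disjoint_empty_right _) (by simpa using hδd)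
    (fun i => by simpa using hδd) (by simpa using hδd) (fun i => by simpa using hδd) ?_ ?_ ?_ ?_
    ?_ (fun q => q.elim0) (fun q => q.elim0) le_rfl (fun q => q.elim0) (fun q => q.elim0)
  · obtain ⟨Q, P2, hS, -, -⟩ := hsel'
    exact ⟨Q, P2, hS⟩
  · intro i b hb
    refine sgp_zero _ _ _ _ _ fun v hv hbv => ?_
    have h4 := hN.rN n hn v
    have h5 : X.P.pt v.1 = i := hv
    rw [h5] at h4
    exact Finset.disjoint_left.1 h4 hbv hb
  · intro i
    refine le_trans (le_of_eq (sum_eq_zero fun b hb => ?_)) hδd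
    refine max_eq_right ?_
    have h1 := hN.supN n hn i b hb
    have h2 : 0 ≤ (d : ℝ) ^ (1 / 100 : ℝ) := by positivity
    linarith
  · intro i
    rw [sum_piece hlt hinj (Or.inl hn) i]
    exact (hX.thq n (Or.inl hn) i).trans (mul_le_mul_of_nonneg_right hε hdp.le)
  · intro i
    have h1 := hN.excN n hn i
    have h2 : ∀ y : ℝ, y ≤ 4 + max (y - 4) 0 := by
      intro y
      have := le_max_left (y - 4) 0
      linarith
    have h3 : ∑ b ∈ range (d + 2),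
        |((sgp (Fp (xt G X) X t n) (sdn X.P n) (ptn X.P n) i b : ℤ) : ℝ)| ≤
        ∑ b ∈ range (d + 2), (4 + max (|((sgp (Fp (xt G X) X t n) (sdn X.P n) (ptn X.P n) i b :
          ℤ) : ℝ)| - 4) 0) := sum_le_sum fun b _ => h2 _
    rw [sum_add_distrib, sum_const, card_range, nsmul_eq_mul] at h3
    push_cast at h3
    have h4 : x * ((pV X.P n).card : ℝ) ≤ C * d := by
      have h5 : (0 : ℝ) ≤ (pV X.P n).card := Nat.cast_nonneg _
      nlinarith
    nlinarith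
  · simp only [Fintype.card_fin, Nat.cast_zero]
    positivity

/-- palettes of a piece of type B -/
structure StB {V : Type u} [Fintype V] {N J : ℕ} (π κ : ℝ) (K : ℕ) (G : SimpleGraph V) (d : ℕ)
    (X : XD V N J) (A : PalX) (t : V → V → ℕ) (c : V → ℕ) (n : Fin N)
    (Q : Bool → Finset ℕ) (P2 : Finset ℕ) : Prop where
  QA : ∀ i, Q i ⊆ A.Q i
  Plt : P2 ⊆ range (d + 2)
  QQ : Disjoint (Q false) (Q true)
  QP : ∀ i, Disjoint (Q i) P2
  Qc : ∀ i, κ * d ≤ ((Q i).card : ℝ) ∧ ((Q i).card : ℝ) ≤ 2 * κ * d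
  Pc : π * d ≤ (P2.card : ℝ) ∧ (P2.card : ℝ) ≤ 2 * π * d
  rQ : ∀ v : Ts X.P n, Disjoint (Fp (xt G X) X t n v) (Q (X.P.pt v.1))
  bdd : ∀ b ∈ Q false ∪ Q true ∪ P2, |sg (Fp (xt G X) X t n) (sdn X.P n) b| ≤ (K : ℤ)
  ng : ∀ j, ∀ b ∈ Q j, -((sV X.P n false).card : ℝ) ≤
    10 * d * ((sg (Fp (xt G X) X t n) (sdn X.P n) b : ℤ) : ℝ)
  rgP : ∀ w, X.P.rg w = some (n, true) → c w ∈ P2
  rgQ : ∀ w, X.P.rg w = some (n, false) → c w ∉ P2 ∧ ∀ i, c w ∉ Q i

/-- pieces of type B -/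
theorem stageB {V : Type u} [Fintype V] {N J : ℕ} {πk C g z τ e θk θ' η a : ℝ} {M : ℕ}
    {S : Fin J → Scl} {π κ κ0 δ' : ℝ} {G : SimpleGraph V} {d : ℕ}
    {X : XD V N J} {A : PalX} {t : V → V → ℕ} {c : V → ℕ} {Ex : V → Finset ℕ} (hC : 1 ≤ C)
    (hκ0 : κ0 = (1 - 3 * πk) / 100) (hκ0p : 0 < κ0) (hκ01 : κ0 ≤ 1 / 100)
    (hπ1 : π ≤ 1 / 100) (hκ : κ ≤ κ0 / 10) (h1 : 1 ≤ κ * d) (h2 : 1 ≤ π * d) (hd : 1 ≤ d)
    (hδ1 : δ' ≤ κ0 / 100) (hδ2 : δ' ≤ π)
    (hX : PcX C g z θk θ' η a M S G d X) (hA : PalXP πk A d)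
    (hR : RgX4 πk C a η τ e S G d X A t c Ex) {n : Fin N} (hn : X.P.ty n = Ty.B)
    (hζ : (S (X.sc n)).ζ ≤ 1 / 1000)
    (hθ : (S (X.sc n)).θ * d + 2 * a * d ≤ δ' * d) :
    ∃ (Q : Bool → Finset ℕ) (P2 : Finset ℕ), StB π κ (KX4 C πk) G d X A t c n Q P2 := by
  have hd1 : (1 : ℝ) ≤ d := by exact_mod_cast hd
  have hdp : (0 : ℝ) < d := by linarith
  have hC0 : 0 ≤ C := by linarith
  have h3π : 0 < 1 - 3 * πk := by linarith
  -- the constant
  have hK : 10 ^ 4 * (C + 5) / (1 - 3 * πk) ≤ (KX4 C πk : ℝ) := by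
    unfold KX4
    push_cast
    have := Nat.le_ceil (10 ^ 4 * (C + 5) / (1 - 3 * πk))
    linarith
  have hK1 : 1 ≤ KX4 C πk := by
    unfold KX4
    omega
  have hK2 : 10 ^ 4 * (C + 5) ≤ (KX4 C πk : ℝ) * (1 - 3 * πk) := by
    rwa [div_le_iff₀ h3π] at hK
  have hK0 : (0 : ℝ) ≤ KX4 C πk := Nat.cast_nonneg _
  have hK3 : 10 ^ 4 * (C + 5) ≤ (KX4 C πk : ℝ) := by nlinarith
  obtain ⟨s, hs⟩ : ∃ s : ℕ → ℤ, s = sg (Fp (xt G X) X t n) (sdn X.P n) := ⟨_, rfl⟩
  -- rigid vertices are covering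
  have hfr : ∀ w β, X.P.rg w = some (n, β) → Cvr G X d n β w := by
    intro w β hw
    have h1 := hX.rgT w n β hw
    have h2 := (hX.rgd w n β hw).2
    refine ⟨h1.1, h1.2, lt_of_le_of_lt h2 ?_⟩
    nlinarith
  obtain ⟨B1, hB1⟩ : ∃ B1 : Finset ℕ, B1 = (univ.filter (fun w =>
    X.P.rg w = some (n, true))).image c := ⟨_, rfl⟩
  obtain ⟨Ek, hEk⟩ : ∃ Ek : Finset ℕ, Ek = (univ.filter (fun w =>
    X.P.rg w = some (n, false))).image c := ⟨_, rfl⟩
  have hcB : ∀ b ∈ B1, ∃ w, X.P.rg w = some (n, true) ∧ c w = b := by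
    intro b hb
    rw [hB1, mem_image] at hb
    obtain ⟨w, hw, rfl⟩ := hb
    exact ⟨w, (mem_filter.1 hw).2, rfl⟩
  have hcE : ∀ b ∈ Ek, ∃ w, X.P.rg w = some (n, false) ∧ c w = b := by
    intro b hb
    rw [hEk, mem_image] at hb
    obtain ⟨w, hw, rfl⟩ := hb
    exact ⟨w, (mem_filter.1 hw).2, rfl⟩
  have hcov : ∀ w β, X.P.rg w = some (n, β) → c w ∈ Cvc G X d c n := by
    intro w β hw
    unfold Cvc
    rw [mem_image]
    exact ⟨w, by rw [mem_filter]; exact ⟨mem_univ _, β, hfr w β hw⟩, rfl⟩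
  have hBC : B1 ⊆ Cvc G X d c n := by
    intro b hb
    obtain ⟨w, hw, rfl⟩ := hcB b hb
    exact hcov w true hw
  have hEC : Ek ⊆ Cvc G X d c n := by
    intro b hb
    obtain ⟨w, hw, rfl⟩ := hcE b hb
    exact hcov w false hw
  have hCc : ((Cvc G X d c n).card : ℝ) ≤ δ' * d :=
    (cvc_card hX.toPcD c (by omega) (hζ.trans (by norm_num)) (hX.bN n hn)).trans hθ
  have hBkc : (B1.card : ℝ) ≤ δ' * d := le_trans (by exact_mod_cast card_le_card hBC) hCc
  have hEkc : (Ek.card : ℝ) ≤ δ' * d := le_trans (by exact_mod_cast card_le_card hEC) hCc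
  have hmany : ∀ w β, Cvr G X d n β w →
      (S (X.sc n)).ζ / 1000 * d ≤ ((nb G w ∩ pV X.P n).card : ℝ) := by
    intro w β hβ
    have h5 := hβ.2.2
    have h6 := side_large hX.toPcD hβ.2.1 (hX.bN n hβ.2.1) β
    have h7 : (sV X.P n β).card ≤ (sV X.P n β \ nb G w).card + (nb G w ∩ pV X.P n).card := by
      rw [← card_sdiff_add_card_inter (sV X.P n β) (nb G w)]
      refine Nat.add_le_add_left (card_le_card ?_) _
      intro y hy
      rw [mem_inter] at hy ⊢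
      exact ⟨hy.2, sV_sub hy.1⟩
    have h8 : ((sV X.P n β).card : ℝ) ≤ ((sV X.P n β \ nb G w).card : ℝ) +
      ((nb G w ∩ pV X.P n).card : ℝ) := by exact_mod_cast h7
    nlinarith
  have hBE : Disjoint B1 Ek := by
    rw [Finset.disjoint_left]
    intro b hb hb'
    obtain ⟨w, hw, h2⟩ := hcB b hb
    obtain ⟨w', hw', h4⟩ := hcE b hb'
    have hne : w ≠ w' := by
      rintro rfl
      rw [hw] at hw'
      simp at hw'
    have g1 := hfr w true hw
    have g2 := hfr w' false hw'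
    exact hR.big n hn w w' g1.1 g2.1 hne (hmany w true g1) (hmany w' false g2) (h2.trans h4.symm)
  -- large colours
  set L := (range (d + 2)).filter (fun b => (KX4 C πk : ℤ) < |s b|) with hL
  have hLc : (L.card : ℝ) ≤ κ0 / 50 * d := by
    have g1 : (L.card : ℝ) * KX4 C πk ≤ 5 / 3 * C * d := by
      calc (L.card : ℝ) * KX4 C πk = ∑ _b ∈ L, (KX4 C πk : ℝ) := by rw [sum_const, nsmul_eq_mul]
        _ ≤ ∑ b ∈ L, ((need (Fp (xt G X) X t n) (sdn X.P n) false b : ℝ) +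
            need (Fp (xt G X) X t n) (sdn X.P n) true b) := by
          refine sum_le_sum fun b hb => ?_
          have g2 := (mem_filter.1 hb).2
          rw [hs, (sg_need _ _ b).1] at g2
          exact_mod_cast g2.le
        _ ≤ ∑ b ∈ range (d + 2), ((need (Fp (xt G X) X t n) (sdn X.P n) false b : ℝ) +
            need (Fp (xt G X) X t n) (sdn X.P n) true b) :=
          sum_le_sum_of_subset_of_nonneg (filter_subset _ _) fun _ _ _ => by positivity
        _ ≤ 5 / 6 * (sV X.P n false).card + 5 / 6 * (sV X.P n true).card := by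
          rw [sum_add_distrib]
          have g2 := hR.totB n hn false
          have g3 := hR.totB n hn true
          push_cast at g2 g3
          linarith
        _ ≤ 5 / 3 * C * d := by
          have g4 : ∀ β, ((sV X.P n β).card : ℝ) ≤ C * d := fun β =>
            le_trans (by exact_mod_cast card_le_card sV_sub) (pV_card hX.toPcD hC0 n)
          have g5 := g4 false
          have g6 := g4 true
          linarith
    have g2 : (L.card : ℝ) * KX4 C πk * (1 - 3 * πk) ≤ 5 / 3 * C * d * (1 - 3 * πk) :=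
      mul_le_mul_of_nonneg_right g1 h3π.le
    have g3 : (L.card : ℝ) * (10 ^ 4 * (C + 5)) ≤ 5 / 3 * C * d * (1 - 3 * πk) := by
      refine le_trans ?_ g2
      rw [mul_assoc]
      exact mul_le_mul_of_nonneg_left hK2 (Nat.cast_nonneg _)
    have g4 : 1 - 3 * πk = 100 * κ0 := by rw [hκ0]; ring
    rw [g4] at g3
    have g5 : 0 ≤ κ0 * d := by positivity
    have g6 : (L.card : ℝ) * (10 ^ 4 * (C + 5)) ≤ (κ0 / 50 * d) * (10 ^ 4 * (C + 5)) := by
      refine g3.trans ?_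
      nlinarith
    exact le_of_mul_le_mul_right g6 (by positivity)
  -- occurring colours
  obtain ⟨O, hO⟩ : ∃ O : Bool → Finset ℕ, O = fun j => (A.Q j).filter (fun b => ∃ v : Ts X.P n,
    ptn X.P n v = j ∧ b ∈ Fp (xt G X) X t n v) := ⟨_, rfl⟩
  obtain ⟨Gd, hGd⟩ : ∃ Gd : Bool → Finset ℕ, Gd = fun j =>
    (((A.Q j \ O j) \ Cvc G X d c n) \ L).filter
      (fun b => -((sV X.P n false).card : ℝ) ≤ 10 * d * ((s b : ℤ) : ℝ)) := ⟨_, rfl⟩
  have hGm : ∀ j, ∀ b ∈ Gd j, (b ∈ A.Q j ∧ b ∉ O j) ∧ b ∉ Cvc G X d c n ∧ b ∉ L ∧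
      -((sV X.P n false).card : ℝ) ≤ 10 * d * ((s b : ℤ) : ℝ) := by
    intro j b hb
    rw [hGd] at hb
    simp only [mem_filter, mem_sdiff] at hb
    exact ⟨hb.1.1.1, hb.1.1.2, fun h => hb.1.2 h, hb.2⟩
  have hGc : ∀ j, κ0 / 5 * d ≤ ((Gd j).card : ℝ) := by
    intro j
    rw [hGd]
    refine good4 hκ0p (KX4 C πk) (sV X.P n false).card d (by omega) (A.Q j) (O j)
      (Cvc G X d c n) L s (fun b => need (Fp (xt G X) X t n) (sdn X.P n) false b) ?_ ?_ hK1 ?_ ?_ ?_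
      hLc (hCc.trans (mul_le_mul_of_nonneg_right hδ1 hdp.le))
    · intro b
      rw [hs]
      exact (sg_need _ _ b).2
    · have g4 : ((sV X.P n false).card : ℝ) ≤ C * d :=
        le_trans (by exact_mod_cast card_le_card sV_sub) (pV_card hX.toPcD hC0 n)
      have g5 : C * d ≤ 10 * d * KX4 C πk := by nlinarith
      linarith
    · exact hR.negB n hn j
    · rw [hκ0]
      exact (hA.Qc j).1
    · have g1 := hR.rB n hn j
      have g2 : A.Q j ∩ O j = O j := inter_eq_right.2 (by rw [hO]; exact filter_subset _ _)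
      rw [g2, hO]
      exact g1
  have hB1' : B1 ⊆ range (d + 2) := by
    intro b hb
    obtain ⟨w, hw, rfl⟩ := hcB b hb
    rw [mem_range]
    exact hR.clt w (hX.rgT w n true hw).1
  have hB1L : Disjoint B1 L := by
    rw [Finset.disjoint_left]
    intro b hb hb'
    obtain ⟨w, hw, rfl⟩ := hcB b hb
    have g1 := hR.cvt n true w (hfr w true hw)
    have g2 := (mem_filter.1 hb').2
    have g3 : (KX4 C πk : ℝ) < |((s (c w) : ℤ) : ℝ)| := by exact_mod_cast g2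
    rw [hs] at g3
    linarith
  have hκd : κ0 * d ≤ 1 / 100 * d := mul_le_mul_of_nonneg_right hκ01 hdp.le
  obtain ⟨Q, P2, k1, k2, k3, k4, k5, k6, k7, k8, k9⟩ := sel_piece (k0 := κ0) d A.Q Gd B1 Ek L hκ
    (by linarith) hπ1 h1 h2 (fun j b hb => (hGm j b hb).1.1) hGc hA.QQ hB1' hBE hB1L
    (hBkc.trans (mul_le_mul_of_nonneg_right hδ2 hdp.le))
    (hEkc.trans (by have := mul_le_mul_of_nonneg_right hδ1 hdp.le; linarith))
    (hLc.trans (by linarith)) (fun j => by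
      rw [Finset.disjoint_left]
      exact fun b hb hb' => (hGm j b hb).2.1 (hBC hb'))
  refine ⟨Q, P2, ⟨fun i b hb => (hGm i b (k1 i hb)).1.1, k2, k3, k4, k5, k6, ?_, ?_, ?_, ?_, ?_⟩⟩
  · intro v
    rw [Finset.disjoint_left]
    intro b hb hb'
    have g1 := (hGm _ b (k1 _ hb')).1
    refine g1.2 ?_
    rw [hO]
    rw [mem_filter]
    exact ⟨g1.1, v, rfl, hb⟩
  · intro b hb
    have g1 : b ∉ L ∧ b ∈ range (d + 2) := by
      rw [mem_union, mem_union] at hb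
      rcases hb with (hb | hb) | hb
      · exact ⟨(hGm _ b (k1 _ hb)).2.2.1, hA.Qlt _ (hGm _ b (k1 _ hb)).1.1⟩
      · exact ⟨(hGm _ b (k1 _ hb)).2.2.1, hA.Qlt _ (hGm _ b (k1 _ hb)).1.1⟩
      · exact ⟨fun h => Finset.disjoint_left.1 k9 hb h, k2 hb⟩
    by_contra hcon
    push Not at hcon
    refine g1.1 ?_
    rw [hL, mem_filter, hs]
    exact ⟨g1.2, hcon⟩
  · intro j b hb
    have g1 := (hGm j b (k1 j hb)).2.2.2
    rw [hs] at g1
    exact g1
  · intro w hw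
    refine k7 ?_
    rw [hB1, mem_image]
    exact ⟨w, by rw [mem_filter]; exact ⟨mem_univ _, hw⟩, rfl⟩
  · intro w hw
    have g1 : c w ∈ Ek := by
      rw [hEk, mem_image]
      exact ⟨w, by rw [mem_filter]; exact ⟨mem_univ _, hw⟩, rfl⟩
    refine ⟨fun h2 => Finset.disjoint_left.1 k8 h2 g1, fun i h2 => ?_⟩
    exact (hGm i _ (k1 i h2)).2.1 (hEC g1)

/-- SELP4. -/
theorem stmt_SELP4 : Stmt_SELP4.{u} := by
  intro πk C g z τ e M x hπk1 hπk2 hC hg hg1 hz hz1 hτ hτe hx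
  obtain ⟨k0, hk0⟩ : ∃ k0 : ℝ, k0 = (1 - 3 * πk) / 100 := ⟨_, rfl⟩
  have hk0p : 0 < k0 := by rw [hk0]; linarith
  have hk0' : k0 ≤ 1 / 100 := by rw [hk0]; linarith
  have hk01 : k0 ≤ 1 := by linarith
  have hΛ : 0 < 12 + C := by linarith
  have hsel : ∀ π κ ξ : ℝ, ∃ (δ : ℝ) (d0 : ℕ), 0 < δ ∧ (0 < π → π ≤ 1 / 100 → 0 < κ →
      κ ≤ k0 * π / 1000 → 0 < ξ → ∀ d, d0 ≤ d → SelxP π κ k0 ξ (12 + C) δ d) := by
    intro π κ ξ
    by_cases h : 0 < π ∧ π ≤ 1 / 100 ∧ 0 < κ ∧ κ ≤ k0 * π / 1000 ∧ 0 < ξ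
    · obtain ⟨δ, d0, hδ, hS⟩ := selx.{0} π κ k0 ξ (12 + C) 2 h.1 h.2.1 hk0p hk01 h.2.2.1 h.2.2.2.1
        h.2.2.2.2 hΛ.le
      refine ⟨δ, d0, hδ, fun _ _ _ _ _ d hd => ?_⟩
      intro τ _ G Bk Ek x w W
      exact hS d G Bk Ek x w W hd
    · exact ⟨1, 0, one_pos, fun h1 h2 h3 h4 h5 => absurd ⟨h1, h2, h3, h4, h5⟩ h⟩
  choose δf d0f hδf hSf using hsel
  obtain ⟨ξf, hξf⟩ : ∃ ξf : ℝ → ℝ → ℝ → ℝ, ξf = fun ρ π κ => min (x ρ π κ) (g / 800) := ⟨_, rfl⟩
  have hξp : ∀ ρ π κ, 0 < ρ → 0 < π → 0 < κ → 0 < ξf ρ π κ := by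
    intro ρ π κ h1 h2 h3
    rw [hξf]
    exact lt_min (hx ρ π κ h1 h2 h3) (by positivity)
  refine ⟨⟨fun _ => min (1 / 100) (g / (1600 * (12 + C))), fun _ π => k0 * π / 1000,
    fun ρ π κ => ξf ρ π κ / 4, fun _ _ _ _ => 1 / 1000,
    fun _ π _ _ _ => min (k0 / 100) π / 2⟩,
    ⟨?_, ?_, ?_, ?_, ?_⟩, ?_⟩
  · intro ρ hρ
    exact lt_min (by norm_num) (by positivity)
  · intro ρ π _ hπ
    show 0 < k0 * π / 1000
    positivity
  · intro ρ π κ h1 h2 h3
    have := hξp ρ π κ h1 h2 h3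
    show 0 < ξf ρ π κ / 4
    linarith
  · intro ρ π κ ε _ _ _ _
    show (0 : ℝ) < 1 / 1000
    norm_num
  · intro ρ π κ ε ζ _ hπ _ _ _
    show 0 < min (k0 / 100) π / 2
    positivity
  intro J S c' hS hc' hc1'
  have hρ := fun s => (hS s).ρ
  have hπ := fun s => (hS s).π
  have hκ := fun s => (hS s).κ
  have hε := fun s => (hS s).ε
  have hζ := fun s => (hS s).ζ
  have hθ := fun s => (hS s).θ
  dsimp only at hπ hκ hε hζ hθ
  have h1 : Filter.Tendsto (fun d : ℕ => (d : ℝ)) Filter.atTop Filter.atTop :=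
    tendsto_natCast_atTop_atTop
  have ev1 : ∀ᶠ d : ℕ in Filter.atTop, ∀ s : Fin J,
      d0f (S s).π (S s).κ (ξf (S s).ρ (S s).π (S s).κ) ≤ d :=
    Filter.eventually_all.2 fun s => Filter.eventually_ge_atTop _
  have ev2 : ∀ᶠ d : ℕ in Filter.atTop, ∀ s : Fin J,
      (d : ℝ) ^ (-c') ≤ min (k0 / 100) (S s).π / 4 * (d : ℝ) ^ (0 : ℝ) :=
    Filter.eventually_all.2 fun s => ev_rpow (by linarith)
      (by have := (hπ s).1; positivity)
  have ev3 : ∀ᶠ d : ℕ in Filter.atTop, ∀ s : Fin J,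
      1 / (S s).κ ≤ (d : ℝ) ∧ 1 / (S s).π ≤ (d : ℝ) :=
    Filter.eventually_all.2 fun s => (h1.eventually_ge_atTop _).and (h1.eventually_ge_atTop _)
  obtain ⟨d0, hd0⟩ := Filter.eventually_atTop.1 ((ev1.and ev2).and ev3)
  refine ⟨max d0 1, ?_⟩
  intro V _ N G d X A t c Ex θk θ' η hd hX hA hR
  obtain ⟨⟨e1, e2⟩, e3⟩ := hd0 d ((le_max_left _ _).trans hd)
  have hd1 : 1 ≤ d := (le_max_right _ _).trans hd
  have hd1' : (1 : ℝ) ≤ d := by exact_mod_cast hd1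
  have hdp : (0 : ℝ) < d := by linarith
  have hstage : ∀ n : Fin N, ∃ q : (Bool → Finset ℕ) × Finset ℕ,
      (X.P.ty n = Ty.N → SelN (S (X.sc n)).π (S (X.sc n)).κ
        (ξf (S (X.sc n)).ρ (S (X.sc n)).π (S (X.sc n)).κ) (12 + C) d A.Q ∅ ∅
        (sgp (Fp (xt G X) X t n) (sdn X.P n) (ptn X.P n)) q.1 q.2) ∧
      (X.P.ty n = Ty.B → StB (S (X.sc n)).π (S (X.sc n)).κ (KX4 C πk) G d X A t c n q.1 q.2) := by
    intro n
    obtain ⟨s, hs⟩ : ∃ s, s = X.sc n := ⟨_, rfl⟩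
    rw [← hs]
    by_cases hn : X.P.ty n = Ty.N
    · obtain ⟨Q, P2, h⟩ := stageN hC hk0 hk0p (hδf _ _ _)
        (hSf _ _ _ (hπ s).1 ((hπ s).2.trans (min_le_left _ _)) (hκ s).1 (hκ s).2
          (hξp _ _ _ (hρ s).1 (hπ s).1 (hκ s).1) d (e1 s)) hd1 hX hA hR.lt hR.inj hR.toNuN
        (by linarith) hn (by rw [← hs]; exact (hε s).2)
      exact ⟨(Q, P2), fun _ => h, fun h' => absurd (hn.symm.trans h') (by decide)⟩
    · by_cases hB : X.P.ty n = Ty.B
      · have hκ' : (S s).κ ≤ k0 / 10 := by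
          have g1 := (hκ s).2
          have g2 : (S s).π ≤ 1 / 100 := (hπ s).2.trans (min_le_left _ _)
          nlinarith
        obtain ⟨Q, P2, h⟩ := stageB (δ' := min (k0 / 100) (S s).π) hC hk0 hk0p hk0'
          ((hπ s).2.trans (min_le_left _ _)) hκ'
          (by have := (e3 s).1; rw [div_le_iff₀ (hκ s).1] at this; linarith)
          (by have := (e3 s).2; rw [div_le_iff₀ (hπ s).1] at this; linarith) hd1
          (min_le_left _ _) (min_le_right _ _) hX hA hR hB (by rw [← hs]; exact (hζ s).2) (by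
            rw [← hs]
            have g1 := e2 s
            rw [Real.rpow_zero, mul_one] at g1
            have g2 := (hθ s).2
            have g3 : (S s).θ + 2 * (d : ℝ) ^ (-c') ≤ min (k0 / 100) (S s).π := by linarith
            calc (S s).θ * d + 2 * (d : ℝ) ^ (-c') * d = ((S s).θ + 2 * (d : ℝ) ^ (-c')) * d := by
                  ring
              _ ≤ _ := mul_le_mul_of_nonneg_right g3 hdp.le)
        exact ⟨(Q, P2), fun h' => absurd h' hn, fun _ => h⟩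
      · exact ⟨(fun _ => ∅, ∅), fun h => absurd h hn, fun h => absurd h hB⟩
  choose f hfN hfB using hstage
  refine ⟨fun n => (f n).1, fun n => (f n).2, ?_, ?_, ?_, ?_, ?_, ?_, ?_, ?_, ?_, ?_, ?_, ?_, ?_⟩
  · exact fun n hn i => hn.elim (fun h => ((hfN n h).QG i).trans (hA.Qlt i))
      fun h => ((hfB n h).QA i).trans (hA.Qlt i)
  · exact fun n hn => hn.elim (fun h => (hfN n h).Plt) fun h => (hfB n h).Plt
  · exact fun n hn => hn.elim (fun h => (hfN n h).QQ) fun h => (hfB n h).QQ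
  · exact fun n hn => hn.elim (fun h => (hfN n h).QP) fun h => (hfB n h).QP
  · exact fun n hn => hn.elim (fun h => (hfN n h).Qc) fun h => (hfB n h).Qc
  · exact fun n hn => hn.elim (fun h => (hfN n h).Pc) fun h => (hfB n h).Pc
  · intro n hn v
    rcases hn with hn | hn
    · exact Finset.disjoint_of_subset_right ((hfN n hn).QG _) (hR.rN n hn v)
    · exact (hfB n hn).rQ v
  · intro n hn i
    refine ((hfN n hn).sm i).trans (mul_le_mul_of_nonneg_right ?_ hdp.le)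
    rw [hξf]
    exact min_le_left _ _
  · intro n hn i
    refine ((hfN n hn).l1 i).trans (mul_le_mul_of_nonneg_right ?_ hdp.le)
    have g1 : (S (X.sc n)).π ≤ g / (1600 * (12 + C)) := (hπ _).2.trans (min_le_right _ _)
    rw [le_div_iff₀ (by positivity)] at g1
    have g2 : ξf (S (X.sc n)).ρ (S (X.sc n)).π (S (X.sc n)).κ ≤ g / 800 := by
      rw [hξf]
      exact min_le_right _ _
    linarith
  · exact fun n hn => (hfB n hn).bdd
  · exact fun n hn => (hfB n hn).ng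
  · intro n w hw
    exact (hfB n (hX.rgT w n true hw).2).rgP w hw
  · intro n w hw
    exact (hfB n (hX.rgT w n false hw).2).rgQ w hw

end Pool.Agent.Work.MP_db9399_x4_helper59
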